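import Pool.Agent.E8helper25.LT.AV

/-!
# The analytic part of the Birch and Swinnerton-Dyer formula for abelian varieties as an asymptotic
formula for the numbers of points

Let `A` be an abelian variety of dimension `g` over `ℚ`, `S` a finite set of primes containing those of bad
reduction, `L(A, s) = ∏_{p ∉ S} ∏_j (1 - α_{p,j} p^{-s})⁻¹ = ∑ a(n) n^{-s}` (`Re s > 3/2`) and `N_p`, `N_{p²}` the
numbers of points of `A` over the fields with `p` and `p²` elements. Two of the three assertions of the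
conjecture say that `L(A, s)` continues analytically to `s = 1` and that
`(s - 1)^{-r} L(A, s) → B` as `s → 1`, with `r` the rank of `A(ℚ)` and `B ≠ 0` the arithmetic side of the formula.
Birch and Swinnerton-Dyer were led to them by the products of the `N_p / p^g` over the primes `p ≤ X`;
an asymptotic formula for these products implies the Riemann hypothesis for `L(A, s)` and is much stronger
than the conjecture (Goldfeld; Kuo and Murty; Conrad).

Here both assertions together are shown to be EQUIVALENT to an asymptotic formula for numbers of points,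
for every abelian variety over `ℚ`, without any hypothesis on `L(A, s)` - no continuation, no
Riemann hypothesis, no automorphy, no hypothesis on the second order terms.

For `c > π/2` let `K(u) = e^{icu} / Γ(1 + u)` and

`W(T) = ∑_{p ∉ S} [K(u) log (N_p / p^g) + (K(2u) - K(u))/2 · log (N_{p²} / p^{2g})]`, `u = log p / T`,

an absolutely convergent series, the logarithm of a smooth product of the `N_p / p^g` and `N_{p²} / p^{2g}` over the
primes up to about `e^T`. Then `exp W(T) / T^r → e^{-rΛ} / B`, `Λ = ∫_0^∞ (e^{-t} - K(t)) dt/t`, with an error `O(1/T)`.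
The formula becomes simpler for the extensions `0 → 𝔾_m^r → G → A → 0`, such as the one used by Bloch in his
reformulation of the conjecture: `#G(𝔽_q) = N_q (q - 1)^r`, `dim G = g + r`, and
the smooth products of the `#G(𝔽_p) / p^{dim G}` converge WITHOUT convergence factors, to
`B⁻¹ ∏_{p ∈ S} (1 - 1/p)^{-r}`.

The continuation to a neighbourhood of the segment `[1, 3/2]` is equivalent to the boundedness of the sums
`∑ a(n) n^{-s} / Γ(1 + log n / T)` for large `T` near the segment.
-/

set_option autoImplicit false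

namespace Pool.Agent.Results.MP_dfae13_nt.PointCountFormulaH25

open Filter Topology Asymptotics
open Pool.Agent.TH958.BV (cone)

section defs

variable {n : ℕ}

/-- The number of the points with coordinates in the field with `p^e` elements of the projective scheme
`A` over `ℤ` defined by the homogeneous polynomials `X`: the number of the nonzero solutions divided by
`p^e - 1`. -/
noncomputable def points (X : Set (MvPolynomial (Fin n) ℤ)) (p : Nat.Primes) (e : ℕ) : ℝ :=
  haveI : Fact (p : ℕ).Prime := ⟨p.2⟩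
  (cone X (Int.castRingHom (GaloisField (p : ℕ) e)) : ℝ) / (((p : ℕ) : ℝ) ^ e - 1)

/-- `α_1, …, α_{2g}` are the eigenvalues of the geometric Frobenius at `p` on the first cohomology of the
abelian variety `A` of dimension `g` defined by `X`: they are the zeros of a polynomial with integral
coefficients, of absolute value `p^{1/2}`, and the number of the points of `A` over the field with `p^e`
elements is `∏ (1 - α_j^e)` for every `e ≥ 1`. By Weil this holds at all primes of good reduction. -/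
def IsFrobenius (X : Set (MvPolynomial (Fin n) ℤ)) (g : ℕ) (p : Nat.Primes) (α : Fin (2 * g) → ℂ) :
    Prop :=
  (∃ P : Polynomial ℤ, P.map (Int.castRingHom ℂ) = ∏ j, (Polynomial.X - Polynomial.C (α j))) ∧
    (∀ j, ‖α j‖ = √((p : ℕ) : ℝ)) ∧ ∀ e : ℕ, e ≠ 0 → (points X p e : ℂ) = ∏ j, (1 - α j ^ e)

/-- `L(A, s) = ∏_{p ∉ S} ∏_j (1 - α_{p,j} p^{-s})⁻¹`. -/
noncomputable def LFun {N : ℕ} (S : Finset Nat.Primes) (α : Nat.Primes → Fin N → ℂ) (s : ℂ) : ℂ :=
  open Classical in
  ∏' p : Nat.Primes, if p ∈ S then 1 else ∏ j, (1 - α p j * ((p : ℕ) : ℂ) ^ (-s))⁻¹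

/-- `F` is the L-function for `Re s > 3/2`. -/
def Extends {N : ℕ} (S : Finset Nat.Primes) (α : Nat.Primes → Fin N → ℂ) (F : ℂ → ℂ) : Prop :=
  ∀ s : ℂ, 3 / 2 < s.re → F s = LFun S α s

/-- The smooth sum `∑ a(n) n^{-s} / Γ(1 + log n / T)`. -/
noncomputable def smooth (a : ℕ → ℂ) (T : ℝ) (s : ℂ) : ℂ :=
  ∑' n : ℕ, LSeries.term a s n / Real.Gamma (1 + Real.log n / T)

/-- The smooth sums are bounded near the segment `[1, 2]` for large `T`. -/
def BoundedNear (a : ℕ → ℂ) : Prop :=
  ∃ δ M T₀ : ℝ, 0 < δ ∧ ∀ T : ℝ, T₀ ≤ T → ∀ s : ℂ, 1 - δ ≤ s.re → s.re ≤ 2 → |s.im| ≤ δ →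
    ‖smooth a T s‖ ≤ M

/-- The kernel `K(u) = e^{icu} / Γ(1 + u)`. -/
noncomputable def kernel (c u : ℝ) : ℂ :=
  Complex.exp ((c * u : ℝ) * Complex.I) * ((Real.Gamma (1 + u))⁻¹ : ℝ)

/-- `Λ = ∫_0^∞ (e^{-t} - K(t)) dt/t`. -/
noncomputable def Lambda (c : ℝ) : ℂ := ∫ t in Set.Ioi (0 : ℝ),
  (Complex.exp (-(t : ℂ)) - kernel c t) / t

/-- The number of the points over the field with `p^e` elements of an extension of `A` by the split torus
of dimension `r`. -/
noncomputable def pointsExt (X : Set (MvPolynomial (Fin n) ℤ)) (r : ℕ) (p : Nat.Primes) (e : ℕ) : ℝ :=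
  points X p e * (((p : ℕ) : ℝ) ^ e - 1) ^ r

/-- The term of `W(T)` at `p`, for an extension of `A` by the split torus of dimension `r` (for `A`
itself if `r = 0`). -/
noncomputable def term (X : Set (MvPolynomial (Fin n) ℤ)) (g : ℕ) (S : Finset Nat.Primes) (r : ℕ)
    (c T : ℝ) (p : Nat.Primes) : ℂ :=
  open Classical in
  if p ∈ S then 0 else
    kernel c (Real.log ((p : ℕ) : ℝ) / T) *
        Real.log (pointsExt X r p 1 / ((p : ℕ) : ℝ) ^ (g + r)) +
      (kernel c (2 * (Real.log ((p : ℕ) : ℝ) / T)) - kernel c (Real.log ((p : ℕ) : ℝ) / T)) / 2 *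
        Real.log (pointsExt X r p 2 / (((p : ℕ) : ℝ) ^ 2) ^ (g + r))

/-- `W(T)`. -/
noncomputable def W (X : Set (MvPolynomial (Fin n) ℤ)) (g : ℕ) (S : Finset Nat.Primes) (r : ℕ)
    (c T : ℝ) : ℂ := ∑' p : Nat.Primes, term X g S r c T p

/-- `B ∏_{p ∈ S} (1 - 1/p)^r`. -/
noncomputable def adjust (S : Finset Nat.Primes) (r : ℕ) (B : ℂ) : ℂ :=
  B * (∏ p ∈ S, (1 - 1 / ((p : ℕ) : ℂ))) ^ r

end defs

section bridge

variable {n g : ℕ} {X : Set (MvPolynomial (Fin n) ℤ)} {S : Finset Nat.Primes}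
  {α : Nat.Primes → Fin (2 * g) → ℂ}

theorem pt (hα : ∀ p ∉ S, IsFrobenius X g p (α p)) : Pool.Agent.E8helper25.LT.Pt S α (points X) := by
  intro p hp
  obtain ⟨h1, h2, h3⟩ := hα p hp
  refine ⟨h1, h2, fun e he => ⟨?_, h3 e he⟩⟩
  unfold points
  refine div_nonneg (Nat.cast_nonneg _) ?_
  have : (1 : ℝ) ≤ ((p : ℕ) : ℝ) ^ e := one_le_pow₀ (by exact_mod_cast p.2.one_lt.le)
  linarith

theorem term_eq (r : ℕ) (c T : ℝ) (p : Nat.Primes) :
    term X g S r c T p = Pool.Agent.E8helper25.LT.tm S g (points X) r c T p := by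
  unfold term Pool.Agent.E8helper25.LT.tm pointsExt
  rw [pow_one]
  rfl

theorem W_eq (hα : ∀ p ∉ S, IsFrobenius X g p (α p)) (r : ℕ) (c T : ℝ) : W X g S r c T =
    Pool.Agent.E8helper25.LT.WW Pool.Agent.E8helper25.LT.qp (Pool.Agent.E8helper25.LT.bt S α r) c T := by
  unfold W
  simp only [term_eq]
  exact Pool.Agent.E8helper25.LT.tm_sum (pt hα) r c T

end bridge

/-- **The analytic part of the Birch and Swinnerton-Dyer formula for all abelian varieties over `ℚ`,
in terms of numbers of points.** Let `A` be an abelian variety of dimension `g` over `ℚ`, defined by the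
homogeneous polynomials `X` with integral coefficients, and `S` a finite set of primes which contains the
primes of bad reduction of `A` (or of `X`).

1. The series `W(T)` converges absolutely.
2. `L(A, s)` has an expansion `∑ a(n) n^{-s}`, absolutely convergent for `Re s > 3/2`.
3. For every natural number `r` (the rank) and every `B ≠ 0` (the arithmetic side) the following are
equivalent: `L(A, s)` has an analytic continuation to a neighbourhood of the segment `[1, 3/2]` with
`(s - 1)^{-r} L(A, s) → B` as `s → 1`; the smooth sums of the `a(n) n^{-s}` are bounded near the segment, and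
`exp W(T_n) → B⁻¹ ∏_{p ∈ S} (1 - 1/p)^{-r}` for the extensions of `A` by the torus of rank `r`, for one `c > π/2` and
one sequence `T_n → ∞`.
4. The boundedness of the smooth sums is equivalent to the existence of the continuation.
5. For every meromorphic continuation `F` to a neighbourhood of the segment the limit formula
`(s - 1)^{-r} F(s) → B` is equivalent to each of the following: the asymptotic formula
`exp W(T_n) / T_n^r → e^{-rΛ} / B` for `A`, for one `c > π/2` and one sequence; the same for all `c > π/2` and with the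
error term `O(1/T)`; the limit formula for the extensions, for one `c` and one sequence; the same for all `c`
and with the error term `O(1/T)`. -/
theorem result (n g : ℕ) (X : Set (MvPolynomial (Fin n) ℤ)) (S : Finset Nat.Primes)
    (α : Nat.Primes → Fin (2 * g) → ℂ) (hα : ∀ p ∉ S, IsFrobenius X g p (α p)) :
    (∀ (r : ℕ) (c T : ℝ), 0 < T → Summable fun p => ‖term X g S r c T p‖) ∧
    (∃ a : ℕ → ℂ, ∀ s : ℂ, 3 / 2 < s.re → LSeriesHasSum a s (LFun S α s)) ∧
    (∀ a : ℕ → ℂ, (∀ s : ℂ, 3 / 2 < s.re → LSeriesHasSum a s (LFun S α s)) →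
      ∀ (r : ℕ) (B : ℂ), B ≠ 0 →
        ((∃ F : ℂ → ℂ, Extends S α F ∧ (∀ x ∈ Set.Icc (1 : ℝ) (3 / 2), AnalyticAt ℂ F x) ∧
          Tendsto (fun s => F s / (s - 1) ^ r) (𝓝[≠] 1) (𝓝 B)) ↔
        (BoundedNear a ∧ ∃ c : ℝ, Real.pi / 2 < c ∧ ∃ T : ℕ → ℝ, Tendsto T atTop atTop ∧
          Tendsto (fun k => Complex.exp (W X g S r c (T k))) atTop (𝓝 (1 / adjust S r B))))) ∧
    (∀ a : ℕ → ℂ, (∀ s : ℂ, 3 / 2 < s.re → LSeriesHasSum a s (LFun S α s)) →
      (BoundedNear a ↔
        ∃ F : ℂ → ℂ, Extends S α F ∧ ∀ x ∈ Set.Icc (1 : ℝ) (3 / 2), AnalyticAt ℂ F x)) ∧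
    ∀ F : ℂ → ℂ, Extends S α F → (∀ x ∈ Set.Icc (1 : ℝ) (3 / 2), MeromorphicAt F (x : ℂ)) →
      ∀ (r : ℕ) (B : ℂ), B ≠ 0 → List.TFAE [
        Tendsto (fun s => F s / (s - 1) ^ r) (𝓝[≠] 1) (𝓝 B),
        ∃ c : ℝ, Real.pi / 2 < c ∧ ∃ T : ℕ → ℝ, Tendsto T atTop atTop ∧
          Tendsto (fun k => Complex.exp (W X g S 0 c (T k)) / (T k : ℂ) ^ r) atTop
            (𝓝 (Complex.exp (-(r * Lambda c)) / B)),
        ∀ c : ℝ, Real.pi / 2 < c →
          (fun T : ℝ => Complex.exp (W X g S 0 c T) / (T : ℂ) ^ r -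
            Complex.exp (-(r * Lambda c)) / B) =O[atTop] (fun T : ℝ => 1 / T),
        ∃ c : ℝ, Real.pi / 2 < c ∧ ∃ T : ℕ → ℝ, Tendsto T atTop atTop ∧
          Tendsto (fun k => Complex.exp (W X g S r c (T k))) atTop (𝓝 (1 / adjust S r B)),
        ∀ c : ℝ, Real.pi / 2 < c →
          (fun T : ℝ => Complex.exp (W X g S r c T) - 1 / adjust S r B) =O[atTop]
            (fun T : ℝ => 1 / T)] := by
  have h := pt hα
  have hpar := h.par
  have hmain : ∀ F : ℂ → ℂ, Extends S α F →
      (∀ x ∈ Set.Icc (1 : ℝ) (3 / 2), MeromorphicAt F (x : ℂ)) →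
      ∀ (r : ℕ) (B : ℂ), B ≠ 0 → List.TFAE [
        Tendsto (fun s => F s / (s - 1) ^ r) (𝓝[≠] 1) (𝓝 B),
        ∃ c : ℝ, Real.pi / 2 < c ∧ ∃ T : ℕ → ℝ, Tendsto T atTop atTop ∧
          Tendsto (fun k => Complex.exp (W X g S 0 c (T k)) / (T k : ℂ) ^ r) atTop
            (𝓝 (Complex.exp (-(r * Lambda c)) / B)),
        ∀ c : ℝ, Real.pi / 2 < c →
          (fun T : ℝ => Complex.exp (W X g S 0 c T) / (T : ℂ) ^ r -
            Complex.exp (-(r * Lambda c)) / B) =O[atTop] (fun T : ℝ => 1 / T),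
        ∃ c : ℝ, Real.pi / 2 < c ∧ ∃ T : ℕ → ℝ, Tendsto T atTop atTop ∧
          Tendsto (fun k => Complex.exp (W X g S r c (T k))) atTop (𝓝 (1 / adjust S r B)),
        ∀ c : ℝ, Real.pi / 2 < c →
          (fun T : ℝ => Complex.exp (W X g S r c T) - 1 / adjust S r B) =O[atTop]
            (fun T : ℝ => 1 / T)] := by
    intro F hE hm r B hB
    simp only [W_eq hα]
    refine Pool.Agent.E8helper25.LT.q_crit hpar (fun x hx => ?_) hE r hB
    by_cases hx2 : x ≤ 3 / 2
    · exact hm x ⟨hx.1, hx2⟩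
    · push Not at hx2
      exact (Pool.Agent.E8helper25.LT.extend hpar hE hx2).meromorphicAt
  have hbdd : ∀ a : ℕ → ℂ, (∀ s : ℂ, 3 / 2 < s.re → LSeriesHasSum a s (LFun S α s)) →
      (BoundedNear a ↔
        ∃ F : ℂ → ℂ, Extends S α F ∧ ∀ x ∈ Set.Icc (1 : ℝ) (3 / 2), AnalyticAt ℂ F x) := by
    intro a ha
    refine (Pool.Agent.E8helper25.LT.bdd_iff hpar ha).trans ?_
    constructor
    · rintro ⟨F, h1, h2⟩
      exact ⟨F, h2, h1⟩
    · rintro ⟨F, h1, h2⟩
      exact ⟨F, h2, h1⟩
  refine ⟨fun r c T hT => ?_, Pool.Agent.E8helper25.LT.LFn_coeff hpar, fun a ha r B hB => ?_, hbdd,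
    hmain⟩
  · simp only [term_eq]
    exact Pool.Agent.E8helper25.LT.tm_summ h r c hT
  · constructor
    · rintro ⟨F, h1, h2, h3⟩
      exact ⟨(hbdd a ha).2 ⟨F, h1, h2⟩,
        ((hmain F h1 (fun x hx => (h2 x hx).meromorphicAt) r B hB).out 0 3).1 h3⟩
    · rintro ⟨h1, h2⟩
      obtain ⟨F, h3, h4⟩ := (hbdd a ha).1 h1
      exact ⟨F, h3, h4, ((hmain F h3 (fun x hx => (h4 x hx).meromorphicAt) r B hB).out 0 3).2 h2⟩

end Pool.Agent.Results.MP_dfae13_nt.PointCountFormulaH25
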