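import Pool.Agent.E8helper25.LT.ECT

/-!
# The analytic part of the Birch and Swinnerton-Dyer conjecture over number fields, in terms of the numbers of
points

Let `E` be an elliptic curve over a number field `K`. Two of the assertions of the conjecture say that
`L(E, s)` continues analytically to `ℂ` and that `(s - 1)^{-r} L(E, s) → B` as `s → 1`, with `r` the rank of `E(K)`
and `B ≠ 0` the arithmetic side of the formula. The starting point of Birch and Swinnerton-Dyer was the
asymptotic behaviour of the products of the `N_v / q_v` over the places with `q_v ≤ X`; the asymptotic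
formula for these sharp products is much stronger than the conjecture: it implies the Riemann hypothesis
for `L(E, s)` (Goldfeld; Conrad; Kuo and Murty).

Here the two assertions together are shown to be EQUIVALENT to an asymptotic formula for the numbers of points
`N_v`, for every elliptic curve over every number field and without any hypothesis on `L(E, s)`: no
continuation, no Riemann hypothesis, no modularity is assumed, and all places, with the exact
Euler factors at the places of bad reduction, are taken into account.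

Let `N_v` be the number of the nonsingular points over the residue field `k_v` of the reduction of a minimal
Weierstrass equation at `v`, `N'_v` the same number for the quadratic twist of the reduction
(`N_v + N'_v = 2 (q_v + 1)` for good and `2 q_v` for bad reduction), `c > π/2`, `K(u) = e^{icu} / Γ(1 + u)` and

`W_r(T) = ∑_v [(K(u) + K(2u))/2 · log (N_v (q_v - 1)^r / q_v^{1 + r})`
`              + (K(2u) - K(u))/2 · log (N'_v (q_v + 1)^r / q_v^{1 + r})]`,  `u = log q_v / T`,

an absolutely convergent series, a smooth form of the logarithm of the product over the places with `q_v` up to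
about `e^T` of the `N_v (q_v - 1)^r / q_v^{1 + r}`. These are the numbers `#G(k_v) / q_v^{dim G}` for the
extensions `0 → 𝔾_m^r → G → E → 0`, such as Bloch's extension by the group `E(K)` modulo torsion, and
`N'_v (q_v + 1)^r` belongs to the quadratic twist of `G`. The conjecture is equivalent to the convergence,
without any convergence factors, of these products for `G` to `1 / (B κ^r)`, where `κ` is the residue of the
Dedekind zeta function of `K` at `1` (that is `2^{r₁} (2π)^{r₂} h R / (w √|Δ|)`).

The existence of the continuation is equivalent to the boundedness of the sums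
`∑ a(n) n^{-s} / Γ(1 + log n / T)`, where the `a(n)` are the coefficients of `L(E, s)`, for large `T`: an open
set `U` that contains the half-lines to the right of its points, for instance `ℂ`, is contained in a region
of analyticity of `L(E, s)` if and only if these sums are locally bounded on `U`.
-/

set_option autoImplicit false

namespace Pool.Agent.Results.MP_9ab903_nt.PointCountFormulaH25

open Filter Topology Asymptotics IsDedekindDomain NumberField

variable {K : Type} [Field K] [NumberField K]

/-- The number `q_v` of the elements of the residue field at `v`. -/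
noncomputable def q (v : HeightOneSpectrum (𝓞 K)) : ℝ := (Ideal.absNorm v.asIdeal : ℝ)

section defs

variable (E : WeierstrassCurve K) (v : HeightOneSpectrum (𝓞 K))

/-- A minimal Weierstrass equation of `E` at `v`. -/
noncomputable def model : WeierstrassCurve (v.adicCompletion K) :=
  (E.baseChange (v.adicCompletion K)).minimal (v.adicCompletionIntegers K)

open Classical in
/-- The number `N_v` of the nonsingular points over the residue field of the reduction at `v`: for good
reduction this is the number of all points, and for split multiplicative, other multiplicative and additive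
reduction it is `q_v - 1`, `q_v + 1` and `q_v`. -/
noncomputable def points : ℝ :=
  if (model E v).HasGoodReduction (v.adicCompletionIntegers K) then
    (Nat.card (((E.baseChange (v.adicCompletion K)).minimal (v.adicCompletionIntegers K)).reduction
      (v.adicCompletionIntegers K)).toAffine.Point : ℝ)
  else if (model E v).HasSplitMultiplicativeReduction (v.adicCompletionIntegers K) then q v - 1
  else if (model E v).HasMultiplicativeReduction (v.adicCompletionIntegers K) then q v + 1
  else q v

open Classical in
/-- The number `N'_v` of the nonsingular points of the quadratic twist of the reduction at `v`. -/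
noncomputable def pointsTwist : ℝ :=
  if (model E v).HasGoodReduction (v.adicCompletionIntegers K) then 2 * (q v + 1) - points E v
  else 2 * q v - points E v

/-- The kernel `K(u) = e^{icu} / Γ(1 + u)`. -/
noncomputable def kernel (c u : ℝ) : ℂ :=
  Complex.exp ((c * u : ℝ) * Complex.I) * ((Real.Gamma (1 + u))⁻¹ : ℝ)

/-- `Λ = ∫_0^∞ (e^{-t} - K(t)) dt/t`. -/
noncomputable def Lambda (c : ℝ) : ℂ := ∫ t in Set.Ioi (0 : ℝ),
  (Complex.exp (-(t : ℂ)) - kernel c t) / t

/-- The term of `W_r(T)` at `v`. -/
noncomputable def term (r : ℕ) (c T : ℝ) : ℂ :=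
  (kernel c (Real.log (q v) / T) + kernel c (2 * (Real.log (q v) / T))) / 2 *
      Real.log (points E v * (q v - 1) ^ r / q v ^ (1 + r)) +
    (kernel c (2 * (Real.log (q v) / T)) - kernel c (Real.log (q v) / T)) / 2 *
      Real.log (pointsTwist E v * (q v + 1) ^ r / q v ^ (1 + r))

/-- `W_r(T)`. -/
noncomputable def W (r : ℕ) (c T : ℝ) : ℂ := ∑' v, term E v r c T

/-- `F` is an analytic continuation of `L(E, s)` to the set `U`. -/
def Continues (F : ℂ → ℂ) (U : Set ℂ) : Prop :=
  (∀ s : ℂ, 3 / 2 < s.re → F s = E.LSeries s) ∧ ∀ s ∈ U, AnalyticAt ℂ F s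

/-- The sum `∑ a(n) n^{-s} / Γ(1 + log n / T)` over the coefficients of `L(E, s)`. -/
noncomputable def smooth (T : ℝ) (s : ℂ) : ℂ :=
  ∑' n : ℕ, LSeries.term ((fun n : ℤ => (n : ℂ)) ∘ E.LFunction) s n / Real.Gamma (1 + Real.log n / T)

/-- The smooth sums are locally bounded on `U` for large `T`. -/
def LocallyBounded (U : Set ℂ) : Prop :=
  ∀ s ∈ U, ∃ V ∈ 𝓝 s, ∃ M T₀ : ℝ, ∀ T : ℝ, T₀ ≤ T → ∀ z ∈ V, ‖smooth E T z‖ ≤ M

/-- `U` is open and contains the half-lines to the right of its points. -/
def RightOpen (U : Set ℂ) : Prop := IsOpen U ∧ ∀ s ∈ U, ∀ x : ℝ, 0 ≤ x → s + x ∈ U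

variable (K) in
/-- The residue `κ` of the Dedekind zeta function of `K` at `1`. -/
noncomputable def kappa : ℂ := (dedekindZeta_residue K : ℂ)

end defs

section bridge

open Pool.Agent.E8helper25.LT (n1 n2 qn tE WE)
open Pool.Agent.W189.NF (aV eV aLoc eLoc card_res)
open Pool.Agent.H921R2.TatePole (nm)

variable (E : WeierstrassCurve K) (v : HeightOneSpectrum (𝓞 K))

theorem points_eq : points E v = n1 E v ∧ pointsTwist E v = n2 E v := by
  have hq : (qn v : ℝ) ≠ 0 := (Pool.Agent.E8helper25.LT.qn_pos v).ne'
  have hc := card_res v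
  have hqq : q v = qn v := rfl
  have hcr : ((Nat.card (IsLocalRing.ResidueField (v.adicCompletionIntegers K)) : ℤ) : ℝ) = qn v := by
    rw [hc]
    simp [qn]
  unfold pointsTwist points n1 n2 aV eV aLoc eLoc model
  rw [hqq]
  split_ifs with h1 h2 h3
  · push_cast at hcr ⊢
    rw [hcr, div_self hq]
    constructor <;> ring
  · push_cast
    rw [zero_div]
    constructor <;> ring
  · push_cast
    rw [zero_div]
    constructor <;> ring
  · push_cast
    rw [zero_div]
    constructor <;> ring

theorem term_eq (r : ℕ) (c T : ℝ) : term E v r c T = tE E r c T v := by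
  unfold term tE Pool.Agent.E8helper25.LT.tt
  rw [(points_eq E v).1, (points_eq E v).2]
  rfl

theorem W_eq (r : ℕ) (c T : ℝ) : W E r c T = WE E r c T := by
  unfold W WE
  exact tsum_congr fun v => term_eq E v r c T

end bridge

/-- **The analytic part of the Birch and Swinnerton-Dyer conjecture over number fields in terms of the numbers
of points.** Let `E` be an elliptic curve over a number field `K`.

1. The series of `L(E, s)` converges absolutely for `Re s > 3/2`.
2. The series `W_r(T)` converges absolutely.
3. Let `U` be an open set which contains `1` and the half-lines to the right of its points, for example `ℂ`.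
For every natural number `r` (the rank) and every `B ≠ 0` (the arithmetic side) the following are equivalent:
`L(E, s)` has an analytic continuation to `U` with `(s - 1)^{-r} L(E, s) → B` as `s → 1`; the smooth sums of
the `a(n) n^{-s}` are locally bounded on `U` for large `T`, and `exp W_r(T_n) → 1 / (B κ^r)` for
one `c > π/2` and one sequence `T_n → ∞`.
4. The local boundedness of the smooth sums on `U` is equivalent to the existence of the continuation to `U`.
5. For every meromorphic continuation `F` to a neighbourhood of the segment `[1, 3/2]` the limit formula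
`(s - 1)^{-r} F(s) → B` is equivalent to each of the following: the asymptotic formula
`exp W_0(T_n) / T_n^r → e^{-rΛ} / B`, for one `c > π/2` and one sequence; the same for all `c > π/2` and with the
error term `O(1/T)`; `exp W_r(T_n) → 1 / (B κ^r)` for one `c` and one sequence; the same for all `c`
and with the error term `O(1/T)`. -/
theorem result (E : WeierstrassCurve K) :
    (∀ s : ℂ, 3 / 2 < s.re → LSeriesSummable ((fun n : ℤ => (n : ℂ)) ∘ E.LFunction) s) ∧
    (∀ (r : ℕ) (c T : ℝ), 0 < T → Summable fun v => ‖term E v r c T‖) ∧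
    (∀ U : Set ℂ, RightOpen U → 1 ∈ U → ∀ (r : ℕ) (B : ℂ), B ≠ 0 →
      ((∃ F : ℂ → ℂ, Continues E F U ∧ Tendsto (fun s => F s / (s - 1) ^ r) (𝓝[≠] 1) (𝓝 B)) ↔
      (LocallyBounded E U ∧ ∃ c : ℝ, Real.pi / 2 < c ∧ ∃ T : ℕ → ℝ, Tendsto T atTop atTop ∧
        Tendsto (fun k => Complex.exp (W E r c (T k))) atTop (𝓝 (1 / (B * kappa K ^ r)))))) ∧
    (∀ U : Set ℂ, RightOpen U → (LocallyBounded E U ↔ ∃ F : ℂ → ℂ, Continues E F U)) ∧
    ∀ F : ℂ → ℂ, (∀ s : ℂ, 3 / 2 < s.re → F s = E.LSeries s) →
      (∀ x ∈ Set.Icc (1 : ℝ) (3 / 2), MeromorphicAt F (x : ℂ)) →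
      ∀ (r : ℕ) (B : ℂ), B ≠ 0 → List.TFAE [
        Tendsto (fun s => F s / (s - 1) ^ r) (𝓝[≠] 1) (𝓝 B),
        ∃ c : ℝ, Real.pi / 2 < c ∧ ∃ T : ℕ → ℝ, Tendsto T atTop atTop ∧
          Tendsto (fun k => Complex.exp (W E 0 c (T k)) / (T k : ℂ) ^ r) atTop
            (𝓝 (Complex.exp (-(r * Lambda c)) / B)),
        ∀ c : ℝ, Real.pi / 2 < c →
          (fun T : ℝ => Complex.exp (W E 0 c T) / (T : ℂ) ^ r -
            Complex.exp (-(r * Lambda c)) / B) =O[atTop] (fun T : ℝ => 1 / T),
        ∃ c : ℝ, Real.pi / 2 < c ∧ ∃ T : ℕ → ℝ, Tendsto T atTop atTop ∧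
          Tendsto (fun k => Complex.exp (W E r c (T k))) atTop (𝓝 (1 / (B * kappa K ^ r))),
        ∀ c : ℝ, Real.pi / 2 < c →
          (fun T : ℝ => Complex.exp (W E r c T) - 1 / (B * kappa K ^ r)) =O[atTop]
            (fun T : ℝ => 1 / T)] := by
  have hs : ∀ s : ℂ, 3 / 2 < s.re → LSeriesSummable ((fun n : ℤ => (n : ℂ)) ∘ E.LFunction) s :=
    fun s hs => (Pool.Agent.E8helper25.LT.LS_hasProd E hs).1
  have hmain : ∀ F : ℂ → ℂ, (∀ s : ℂ, 3 / 2 < s.re → F s = E.LSeries s) →
      (∀ x ∈ Set.Icc (1 : ℝ) (3 / 2), MeromorphicAt F (x : ℂ)) →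
      ∀ (r : ℕ) (B : ℂ), B ≠ 0 → List.TFAE [
        Tendsto (fun s => F s / (s - 1) ^ r) (𝓝[≠] 1) (𝓝 B),
        ∃ c : ℝ, Real.pi / 2 < c ∧ ∃ T : ℕ → ℝ, Tendsto T atTop atTop ∧
          Tendsto (fun k => Complex.exp (W E 0 c (T k)) / (T k : ℂ) ^ r) atTop
            (𝓝 (Complex.exp (-(r * Lambda c)) / B)),
        ∀ c : ℝ, Real.pi / 2 < c →
          (fun T : ℝ => Complex.exp (W E 0 c T) / (T : ℂ) ^ r -
            Complex.exp (-(r * Lambda c)) / B) =O[atTop] (fun T : ℝ => 1 / T),
        ∃ c : ℝ, Real.pi / 2 < c ∧ ∃ T : ℕ → ℝ, Tendsto T atTop atTop ∧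
          Tendsto (fun k => Complex.exp (W E r c (T k))) atTop (𝓝 (1 / (B * kappa K ^ r))),
        ∀ c : ℝ, Real.pi / 2 < c →
          (fun T : ℝ => Complex.exp (W E r c T) - 1 / (B * kappa K ^ r)) =O[atTop]
            (fun T : ℝ => 1 / T)] := by
    intro F h1 h2 r B hB
    simp only [W_eq]
    exact Pool.Agent.E8helper25.LT.k_crit E h1 h2 r hB
  have hlb : ∀ U : Set ℂ, RightOpen U → (LocallyBounded E U ↔ ∃ F : ℂ → ℂ, Continues E F U) := by
    intro U hU
    refine (Pool.Agent.E8helper25.LT.lb_iff hs (by norm_num) hU.1 hU.2).trans ?_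
    constructor
    · rintro ⟨F, h1, h2⟩
      exact ⟨F, h2, h1⟩
    · rintro ⟨F, h1, h2⟩
      exact ⟨F, h2, h1⟩
  refine ⟨hs, fun r c T hT => ?_, fun U hU hU1 r B hB => ?_, hlb, hmain⟩
  · simp only [term_eq]
    exact Pool.Agent.E8helper25.LT.tE_summ E r c hT
  · have hseg : ∀ x ∈ Set.Icc (1 : ℝ) (3 / 2), (x : ℂ) ∈ U := by
      intro x hx
      have h := hU.2 1 hU1 (x - 1) (by linarith [hx.1])
      have e : (1 : ℂ) + ((x - 1 : ℝ) : ℂ) = (x : ℂ) := by push_cast; ring
      rwa [e] at h
    constructor
    · rintro ⟨F, h1, h3⟩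
      exact ⟨(hlb U hU).2 ⟨F, h1⟩, ((hmain F h1.1 (fun x hx =>
        (h1.2 _ (hseg x hx)).meromorphicAt) r B hB).out 0 3).1 h3⟩
    · rintro ⟨h1, h2⟩
      obtain ⟨F, h3⟩ := (hlb U hU).1 h1
      exact ⟨F, h3, ((hmain F h3.1 (fun x hx =>
        (h3.2 _ (hseg x hx)).meromorphicAt) r B hB).out 0 3).2 h2⟩

end Pool.Agent.Results.MP_9ab903_nt.PointCountFormulaH25
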